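import Pool.Agent.U204.PN.Stm

/-!
# Project PN, package THIN (helper894): the number of changes
-/

set_option autoImplicit false

open MeasureTheory ProbabilityTheory Filter Topology Finset

namespace Pool.Agent.U894.PN

/-- sums of negative powers -/
lemma sum_rpow_le (s : ℝ) (hs : 0 < s) (hs1 : s ≤ 1) (N : ℕ) :
    ∑ n ∈ range N, ((n : ℝ) + 1) ^ (s - 1) ≤ (N : ℝ) ^ s / s := by
  induction N with
  | zero => simp [Real.zero_rpow hs.ne']
  | succ N ih =>
    rw [Finset.sum_range_succ]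
    have hN : (0 : ℝ) < (N : ℝ) + 1 := by positivity
    have h1 : (1 + (-(1 / ((N : ℝ) + 1)))) ^ s ≤ 1 + s * (-(1 / ((N : ℝ) + 1))) := by
      refine rpow_one_add_le_one_add_mul_self ?_ hs.le hs1
      have : 1 / ((N : ℝ) + 1) ≤ 1 := by
        rw [div_le_one hN]
        linarith [Nat.cast_nonneg (α := ℝ) N]
      linarith
    have h2 : (N : ℝ) = ((N : ℝ) + 1) * (1 + (-(1 / ((N : ℝ) + 1)))) := by
      field_simp
      ring
    have h3 : (N : ℝ) ^ s ≤ ((N : ℝ) + 1) ^ s - s * ((N : ℝ) + 1) ^ (s - 1) := by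
      have h0 : 0 ≤ 1 + (-(1 / ((N : ℝ) + 1))) := by
        have : 1 / ((N : ℝ) + 1) ≤ 1 := by
          rw [div_le_one hN]
          linarith [Nat.cast_nonneg (α := ℝ) N]
        linarith
      have h4 : (N : ℝ) ^ s = ((N : ℝ) + 1) ^ s * (1 + (-(1 / ((N : ℝ) + 1)))) ^ s := by
        rw [← Real.mul_rpow hN.le h0, ← h2]
      have h5 : ((N : ℝ) + 1) ^ (s - 1) = ((N : ℝ) + 1) ^ s * (1 / ((N : ℝ) + 1)) := by
        rw [Real.rpow_sub_one hN.ne']
        ring
      rw [h4, h5]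
      have h6 := mul_le_mul_of_nonneg_left h1 (Real.rpow_nonneg hN.le s)
      calc ((N : ℝ) + 1) ^ s * (1 + (-(1 / ((N : ℝ) + 1)))) ^ s
          ≤ ((N : ℝ) + 1) ^ s * (1 + s * (-(1 / ((N : ℝ) + 1)))) := h6
        _ = ((N : ℝ) + 1) ^ s - s * (((N : ℝ) + 1) ^ s * (1 / ((N : ℝ) + 1))) := by ring
    have h7 : (N : ℝ) ^ s / s ≤ (((N : ℝ) + 1) ^ s - s * ((N : ℝ) + 1) ^ (s - 1)) / s :=
      div_le_div_of_nonneg_right h3 hs.le
    have h8 : (((N : ℝ) + 1) ^ s - s * ((N : ℝ) + 1) ^ (s - 1)) / s =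
        ((N : ℝ) + 1) ^ s / s - ((N : ℝ) + 1) ^ (s - 1) := by
      field_simp
    push_cast
    linarith

/-- summability of `exp (- N ^ s)` -/
lemma summable_exp (s : ℝ) (hs : 0 < s) : Summable fun N : ℕ => Real.exp (-((N : ℝ) ^ s)) := by
  obtain ⟨k, hk⟩ := exists_nat_gt (1 / s)
  have hks : 1 < s * k := by
    rw [div_lt_iff₀ hs] at hk
    linarith
  rw [← summable_nat_add_iff 1]
  have h1 : Summable fun N : ℕ => (k.factorial : ℝ) * (((N + 1 : ℕ) : ℝ) ^ (-(s * k))) := by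
    apply Summable.mul_left
    have h2 : Summable fun N : ℕ => (N : ℝ) ^ (-(s * k)) :=
      Real.summable_nat_rpow.mpr (by linarith)
    exact (summable_nat_add_iff (f := fun N : ℕ => (N : ℝ) ^ (-(s * k))) 1).mpr h2
  refine Summable.of_nonneg_of_le (fun N => (Real.exp_pos _).le) (fun N => ?_) h1
  have hN : (0 : ℝ) < ((N + 1 : ℕ) : ℝ) := by positivity
  set x : ℝ := ((N + 1 : ℕ) : ℝ) ^ s with hx
  have hx0 : 0 < x := Real.rpow_pos_of_pos hN _
  have h3 := Real.pow_div_factorial_le_exp x hx0.le k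
  have h4 : ((N + 1 : ℕ) : ℝ) ^ (-(s * k)) = (x ^ k)⁻¹ := by
    rw [Real.rpow_neg hN.le, Real.rpow_mul hN.le, Real.rpow_natCast]
  rw [h4, Real.exp_neg, ← div_eq_mul_inv, inv_eq_one_div, div_le_div_iff₀ (Real.exp_pos _)
    (by positivity), one_mul]
  rw [div_le_iff₀ (by positivity)] at h3
  linarith

/-- the indicator of a change -/
def ind (b : Bool) : ℝ := if b = true then 1 else 0

lemma card_eq (ω : ℕ → Bool) (N : ℕ) :
    (((range N).filter fun n => ω n = true).card : ℝ) = ∑ n ∈ range N, ind (ω n) := by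
  rw [Finset.card_filter]
  push_cast
  rfl

lemma mgf_one (μ : ℕ → Measure Bool) [∀ n, IsProbabilityMeasure (μ n)] (n : ℕ) :
    mgf (fun ω : ℕ → Bool => ind (ω n)) (Measure.infinitePi μ) 1 ≤
      Real.exp (2 * (μ n).real {true}) := by
  have h1 : mgf (fun ω : ℕ → Bool => ind (ω n)) (Measure.infinitePi μ) 1 =
      ∫ b, Real.exp (1 * ind b) ∂(μ n) := by
    unfold mgf
    have h := (measurePreserving_eval_infinitePi μ n)
    rw [← h.map_eq, integral_map h.measurable.aemeasurable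
      (Measurable.of_discrete.aestronglyMeasurable)]
  have h2 : ∫ b, Real.exp (1 * ind b) ∂(μ n) = (μ n).real {true} * Real.exp 1 +
      (μ n).real {false} := by
    rw [integral_fintype (Integrable.of_finite)]
    simp [ind]
  have h3 : (μ n).real {false} = 1 - (μ n).real {true} := by
    have h4 : ∫ _b : Bool, (1 : ℝ) ∂(μ n) = (μ n).real {true} + (μ n).real {false} := by
      rw [integral_fintype (Integrable.of_finite)]
      simp
    have h5 : ∫ _b : Bool, (1 : ℝ) ∂(μ n) = 1 := by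
      rw [integral_const, probReal_univ, one_smul]
    linarith
  have hp : 0 ≤ (μ n).real {true} := measureReal_nonneg
  rw [h1, h2, h3]
  have h6 := Real.add_one_le_exp (2 * (μ n).real {true})
  have h7 := Real.exp_one_lt_d9
  nlinarith

/-- The bound of Chernoff. -/
lemma chernoff (μ : ℕ → Measure Bool) [∀ n, IsProbabilityMeasure (μ n)] (c₁ s : ℝ)
    (hs : 0 < s) (hs1 : s ≤ 1)
    (hμ : ∀ n : ℕ, (μ n).real {true} ≤ c₁ * ((n : ℝ) + 1) ^ (s - 1)) (N : ℕ) :
    (Measure.infinitePi μ).real {ω | (2 * c₁ / s + 1) * (N : ℝ) ^ s ≤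
      ∑ n ∈ range N, ind (ω n)} ≤ Real.exp (-((N : ℝ) ^ s)) := by
  have hc : 0 ≤ c₁ := by
    have h := (measureReal_nonneg (μ := μ 0) (s := {true})).trans (hμ 0)
    simpa using h
  have hmeas : ∀ n, Measurable (fun ω : ℕ → Bool => ind (ω n)) := fun n =>
    (Measurable.of_discrete (f := ind)).comp (measurable_pi_apply n)
  have hind : iIndepFun (fun n (ω : ℕ → Bool) => ind (ω n)) (Measure.infinitePi μ) :=
    iIndepFun_infinitePi (X := fun _ => ind) fun _ => Measurable.of_discrete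
  have hmgf : mgf (∑ n ∈ range N, fun ω : ℕ → Bool => ind (ω n)) (Measure.infinitePi μ) 1 ≤
      Real.exp (2 * c₁ / s * (N : ℝ) ^ s) := by
    rw [hind.mgf_sum hmeas]
    calc ∏ n ∈ range N, mgf (fun ω : ℕ → Bool => ind (ω n)) (Measure.infinitePi μ) 1
        ≤ ∏ n ∈ range N, Real.exp (2 * (μ n).real {true}) :=
          Finset.prod_le_prod (fun n _ => mgf_nonneg) fun n _ => mgf_one μ n
      _ = Real.exp (∑ n ∈ range N, 2 * (μ n).real {true}) := by rw [Real.exp_sum]
      _ ≤ Real.exp (2 * c₁ / s * (N : ℝ) ^ s) := by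
          apply Real.exp_le_exp.mpr
          calc ∑ n ∈ range N, 2 * (μ n).real {true}
              ≤ ∑ n ∈ range N, 2 * c₁ * ((n : ℝ) + 1) ^ (s - 1) := by
                refine Finset.sum_le_sum fun n _ => ?_
                have := hμ n
                linarith
            _ = 2 * c₁ * ∑ n ∈ range N, ((n : ℝ) + 1) ^ (s - 1) := by rw [Finset.mul_sum]
            _ ≤ 2 * c₁ * ((N : ℝ) ^ s / s) :=
                mul_le_mul_of_nonneg_left (sum_rpow_le s hs hs1 N) (by positivity)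
            _ = 2 * c₁ / s * (N : ℝ) ^ s := by ring
  have hbd : ∀ ω : ℕ → Bool, |∑ n ∈ range N, ind (ω n)| ≤ N := by
    intro ω
    calc |∑ n ∈ range N, ind (ω n)| ≤ ∑ n ∈ range N, |ind (ω n)| :=
          Finset.abs_sum_le_sum_abs _ _
      _ ≤ ∑ n ∈ range N, (1 : ℝ) := by
          refine Finset.sum_le_sum fun n _ => ?_
          unfold ind
          split_ifs <;> simp
      _ = N := by simp
  have hint : Integrable (fun ω : ℕ → Bool =>
      Real.exp (1 * (∑ n ∈ range N, fun ω : ℕ → Bool => ind (ω n)) ω)) (Measure.infinitePi μ) := by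
    refine Integrable.of_bound (C := Real.exp N) ?_ (Eventually.of_forall fun ω => ?_)
    · refine Measurable.aestronglyMeasurable ?_
      refine Real.measurable_exp.comp (Measurable.const_mul ?_ 1)
      have h := Finset.measurable_sum (range N) (fun n _ => hmeas n)
      convert h using 1
      ext ω
      simp only [Finset.sum_apply]
    · rw [Real.norm_of_nonneg (Real.exp_pos _).le, Real.exp_le_exp, one_mul, Finset.sum_apply]
      exact (le_abs_self _).trans (hbd ω)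
  have hch := measure_ge_le_exp_mul_mgf (μ := Measure.infinitePi μ)
    (X := ∑ n ∈ range N, fun ω : ℕ → Bool => ind (ω n)) ((2 * c₁ / s + 1) * (N : ℝ) ^ s)
    zero_le_one hint
  have e1 : {ω : ℕ → Bool | (2 * c₁ / s + 1) * (N : ℝ) ^ s ≤ ∑ n ∈ range N, ind (ω n)} =
      {ω : ℕ → Bool | (2 * c₁ / s + 1) * (N : ℝ) ^ s ≤
        (∑ n ∈ range N, fun ω : ℕ → Bool => ind (ω n)) ω} := by
    ext ω
    simp only [Set.mem_ofPred_eq, Finset.sum_apply]
  rw [e1]
  refine hch.trans ((mul_le_mul_of_nonneg_left hmgf (Real.exp_pos _).le).trans (le_of_eq ?_))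
  rw [← Real.exp_add]
  congr 1
  ring

theorem t_THIN : Pool.Agent.U204.PN.S_THIN := by
  intro μ _ c₁ t ht0 ht1 hμ
  obtain ⟨s, hs⟩ : ∃ s : ℝ, s = 1 - t := ⟨_, rfl⟩
  have hs0 : 0 < s := by linarith
  have hs1 : s ≤ 1 := by linarith
  have hμ' : ∀ n : ℕ, (μ n).real {true} ≤ c₁ * ((n : ℝ) + 1) ^ (s - 1) := by
    intro n
    have e : s - 1 = -t := by linarith
    rw [e]
    exact hμ n
  have hc : 0 ≤ c₁ := by
    have h := (measureReal_nonneg (μ := μ 0) (s := {true})).trans (hμ 0)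
    simpa using h
  have hsum : (∑' N : ℕ, (Measure.infinitePi μ) {ω | (2 * c₁ / s + 1) * (N : ℝ) ^ s ≤
      ∑ n ∈ range N, ind (ω n)}) ≠ ⊤ := by
    refine ne_top_of_le_ne_top (summable_exp s hs0).tsum_ofReal_ne_top
      (ENNReal.tsum_le_tsum fun N => ?_)
    rw [← ofReal_measureReal (measure_ne_top _ _)]
    exact ENNReal.ofReal_le_ofReal (chernoff μ c₁ s hs0 hs1 hμ' N)
  filter_upwards [ae_eventually_notMem hsum] with ω hω
  obtain ⟨N0, hN0⟩ := eventually_atTop.mp hω
  refine ⟨(2 * c₁ / s + 1) + N0, fun N => ?_⟩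
  rw [← hs, card_eq]
  have hm : 0 ≤ 2 * c₁ / s + 1 := by positivity
  rcases le_or_gt N0 N with h | h
  · have h1 := hN0 N h
    simp only [not_le] at h1
    have h2 : 0 ≤ (N0 : ℝ) * (N : ℝ) ^ s := by positivity
    have h3 : ((2 * c₁ / s + 1) + N0) * (N : ℝ) ^ s =
        (2 * c₁ / s + 1) * (N : ℝ) ^ s + N0 * (N : ℝ) ^ s := by ring
    rw [h3]
    linarith
  · rcases Nat.eq_zero_or_pos N with h0 | h0
    · rw [h0]
      simp [Real.zero_rpow hs0.ne']
    · have h1 : ∑ n ∈ range N, ind (ω n) ≤ N := by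
        calc ∑ n ∈ range N, ind (ω n) ≤ ∑ n ∈ range N, (1 : ℝ) := by
              refine Finset.sum_le_sum fun n _ => ?_
              unfold ind
              split_ifs <;> simp
          _ = N := by simp
      have h2 : (1 : ℝ) ≤ (N : ℝ) ^ s :=
        Real.one_le_rpow (by exact_mod_cast h0) hs0.le
      have h3 : (N : ℝ) ≤ N0 := by exact_mod_cast h.le
      have h4 : (N0 : ℝ) * 1 ≤ (N0 : ℝ) * (N : ℝ) ^ s :=
        mul_le_mul_of_nonneg_left h2 (Nat.cast_nonneg _)
      have h5 : 0 ≤ (2 * c₁ / s + 1) * (N : ℝ) ^ s := by positivity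
      have h6 : ((2 * c₁ / s + 1) + N0) * (N : ℝ) ^ s =
          (2 * c₁ / s + 1) * (N : ℝ) ^ s + N0 * (N : ℝ) ^ s := by ring
      rw [h6]
      linarith

end Pool.Agent.U894.PN
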